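import Mathlib
import Pool.Agent.W795.DD.Stm2
import Pool.Agent.W785.DF.Alg

/-! DD-CAUCHY: comparison of Galerkin solutions on two frequency sets. -/

set_option autoImplicit false

open MeasureTheory Set
open scoped ContDiff InnerProductSpace ENNReal

namespace Pool.Agent.W405.DD

open H459R3.NS (V K3 Per pd fr ee cube)
open Pool.Agent.W785.DF (E3 dk kv cj Pk Nl Fld Fr TP tp frv Herm IsAdmissible)
open Pool.Agent.W795.DD

theorem ab_nonneg (k : K3) : 0 ≤ ab k := Real.sqrt_nonneg _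

theorem ab_pos {k : K3} (hk : k ≠ 0) : 0 < ab k := Real.sqrt_pos.mpr (W785.DF.sq_pos' hk)

theorem A_supp {S S' : Finset K3} (h : S ⊆ S') (m : ℕ) (a : K3 → E3) (ha : ∀ k, k ∉ S → a k = 0) :
    A m S' a = A m S a := by
  unfold A
  symm
  exact Finset.sum_subset h fun k _ hk => by rw [ha k hk, norm_zero, mul_zero]

theorem Nl_supp {S S' : Finset K3} (h : S ⊆ S') (a : K3 → E3) (ha : ∀ k, k ∉ S → a k = 0)
    (k : K3) : Nl S' a k = Nl S a k := by
  unfold Nl
  symm
  refine Finset.sum_subset h fun l _ hl => ?_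
  rw [ha l hl, W785.DF.dk_zero, mul_zero, zero_smul]

theorem A_nonneg (m : ℕ) (S : Finset K3) (a : K3 → E3) : 0 ≤ A m S a :=
  Finset.sum_nonneg fun k _ => mul_nonneg (pow_nonneg (ab_nonneg k) _) (norm_nonneg _)

theorem sum_shift (S G : Finset K3) (b : K3 → ℝ) (hb : ∀ k, 0 ≤ b k) (hs : ∀ k, k ∉ S → b k = 0)
    (l : K3) : ∑ k ∈ G, b (k - l) ≤ ∑ k ∈ S, b k := by
  classical
  have h1 : ∑ k ∈ G, b (k - l) = ∑ k ∈ G.filter (fun k => k - l ∈ S), b (k - l) := by
    rw [Finset.sum_filter]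
    refine Finset.sum_congr rfl fun k _ => ?_
    split_ifs with h
    · rfl
    · exact hs _ h
  have h2 : ∑ k ∈ (G.filter (fun k => k - l ∈ S)).image (fun k => k - l), b k =
      ∑ k ∈ G.filter (fun k => k - l ∈ S), b (k - l) :=
    Finset.sum_image fun x _ y _ h => sub_left_injective h
  rw [h1, ← h2]
  refine Finset.sum_le_sum_of_subset_of_nonneg ?_ fun k _ _ => hb k
  intro k hk
  obtain ⟨k', hk', rfl⟩ := Finset.mem_image.mp hk
  exact (Finset.mem_filter.mp hk').2

theorem sum_Nl (S G : Finset K3) (a : K3 → E3) (ha : ∀ k, k ∉ S → a k = 0) :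
    ∑ k ∈ G, ‖Nl S a k‖ ≤ 2 * Real.pi * (A 0 S a * A 1 S a) := by
  have hpi := Real.pi_pos
  set b : K3 → ℝ := fun k => ab k ^ 1 * ‖a k‖ with hb
  have hb0 : ∀ k, 0 ≤ b k := fun k => mul_nonneg (pow_nonneg (ab_nonneg k) _) (norm_nonneg _)
  have h1 : ∀ k, ‖Nl S a k‖ ≤ 2 * Real.pi * ∑ l ∈ S, ‖a l‖ * b (k - l) := by
    intro k
    unfold Nl
    rw [Finset.mul_sum]
    refine (norm_sum_le _ _).trans (Finset.sum_le_sum fun l _ => ?_)
    rw [norm_smul, norm_mul, norm_mul, norm_mul, Complex.norm_I, Complex.norm_real,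
      Real.norm_of_nonneg hpi.le, Complex.norm_ofNat, mul_one]
    have := W785.DF.norm_dk_le (k - l) (a l)
    calc 2 * Real.pi * ‖dk (k - l) (a l)‖ * ‖a (k - l)‖
        ≤ 2 * Real.pi * (Real.sqrt (W785.DF.sq (k - l)) * ‖a l‖) * ‖a (k - l)‖ := by gcongr
      _ = 2 * Real.pi * (‖a l‖ * b (k - l)) := by simp only [hb, ab, pow_one]; ring
  have h2 : ∑ k ∈ G, ∑ l ∈ S, ‖a l‖ * b (k - l) ≤ A 0 S a * A 1 S a := by
    rw [Finset.sum_comm]
    have h3 : A 0 S a * A 1 S a = ∑ l ∈ S, ‖a l‖ * A 1 S a := by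
      rw [← Finset.sum_mul]
      congr 1
      unfold A
      simp
    rw [h3]
    refine Finset.sum_le_sum fun l _ => ?_
    rw [← Finset.mul_sum]
    refine mul_le_mul_of_nonneg_left ?_ (norm_nonneg _)
    refine sum_shift S G b hb0 (fun k hk => ?_) l
    simp only [hb]
    rw [ha k hk, norm_zero, mul_zero]
  calc ∑ k ∈ G, ‖Nl S a k‖ ≤ ∑ k ∈ G, 2 * Real.pi * ∑ l ∈ S, ‖a l‖ * b (k - l) :=
        Finset.sum_le_sum fun k _ => h1 k
    _ = 2 * Real.pi * ∑ k ∈ G, ∑ l ∈ S, ‖a l‖ * b (k - l) := by rw [Finset.mul_sum]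
    _ ≤ _ := by gcongr

theorem cont_dk (k : K3) : Continuous (dk k) := by
  unfold dk
  fun_prop

theorem cont_Pk (k : K3) : Continuous (Pk k) := by
  unfold Pk
  have := cont_dk k
  fun_prop

theorem cont_Nl {S : Finset K3} {T : ℝ} {x : ℝ → K3 → E3}
    (hx : ∀ k, ContinuousOn (fun t => x t k) (Icc 0 T)) (k : K3) :
    ContinuousOn (fun t => Nl S (x t) k) (Icc 0 T) := by
  unfold Nl
  refine continuousOn_finsetSum _ fun l _ => ?_
  have h1 : ContinuousOn (fun t => (2 * Real.pi * Complex.I * dk (k - l) (x t l) : ℂ))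
      (Icc 0 T) := continuousOn_const.mul ((cont_dk _).comp_continuousOn (hx l))
  exact h1.smul (hx (k - l))

theorem cont_A {S : Finset K3} {T : ℝ} {x : ℝ → K3 → E3}
    (hx : ∀ k, ContinuousOn (fun t => x t k) (Icc 0 T)) (m : ℕ) :
    ContinuousOn (fun t => A m S (x t)) (Icc 0 T) := by
  unfold A
  exact continuousOn_finsetSum _ fun l _ => continuousOn_const.mul (hx l).norm

theorem cont_An {S : Finset K3} {T : ℝ} {x : ℝ → K3 → E3}
    (hx : ∀ k, ContinuousOn (fun t => x t k) (Icc 0 T)) :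
    ContinuousOn (fun t => An S (x t)) (Icc 0 T) := by
  unfold An
  exact continuousOn_finsetSum _ fun l _ => (hx l).norm.div_const _

theorem fld_mono {S S' : Finset K3} (h : S ⊆ S') {a : K3 → E3} (ha : Fld S a) : Fld S' a :=
  ⟨fun k hk => ha.supp k fun h' => hk (h h'), ha.sym, ha.div⟩

theorem fld_sub {S : Finset K3} {a b : K3 → E3} (ha : Fld S a) (hb : Fld S b) : Fld S (a - b) :=
  ⟨fun k hk => by rw [Pi.sub_apply, ha.supp k hk, hb.supp k hk, sub_zero],
    fun k => by rw [Pi.sub_apply, Pi.sub_apply, ha.sym, hb.sym, W785.DF.cj_sub],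
    fun k => by rw [Pi.sub_apply, W785.DF.dk_sub, ha.div, hb.div, sub_zero]⟩

/-- the bounds of the norms of the solutions -/
theorem bounds (hprop : S_prop) (ν K θ ρ : ℝ) (F : Finset K3) (b0 : K3 → E3) (hν : 0 < ν)
    (hb0 : Fld F b0) (hBd : Bd ν F b0 K θ ρ) (m : ℕ) : ∃ M : ℝ, 0 ≤ M ∧
    ∀ T : ℝ, 0 < T → ∀ S : Finset K3, Fr S → F ⊆ S → ∀ x : ℝ → K3 → E3, NSG S ν T b0 x →
    ∀ t ∈ Icc 0 T, A m S (x t) ≤ M := by
  obtain ⟨C, hC, h⟩ := hprop.1 m
  refine ⟨A m F b0 * Real.exp (C / ν * K), mul_nonneg (A_nonneg _ _ _) (Real.exp_pos _).le, ?_⟩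
  intro T hT S hS hFS x hx t ht
  have h1 := h S hS ν T hν hT b0 x hx t ht
  rw [A_supp hFS m b0 hb0.supp] at h1
  refine h1.trans ?_
  refine mul_le_mul_of_nonneg_left ?_ (A_nonneg _ _ _)
  rw [Real.exp_le_exp]
  refine mul_le_mul_of_nonneg_left ?_ (div_pos hC hν).le
  have h2 := (hBd S hS hFS T hT x hx).1
  refine le_trans ?_ h2
  refine intervalIntegral.integral_mono_interval le_rfl ht.1 ht.2 ?_ ?_
  · exact Filter.Eventually.of_forall fun s => sq_nonneg _
  · refine ContinuousOn.intervalIntegrable ?_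
    rw [uIcc_of_le hT.le]
    exact (cont_A (fun k => (hx.smooth k).continuousOn) 0).pow 2

theorem proof (hpert : S_pert) (hprop : S_prop) (hpw : S_pw) : S_cauchy := by
  classical
  intro ν K θ ρ F b0 hν hF hb0 hBd T hT
  obtain ⟨M0, hM0, hA0⟩ := bounds hprop ν K θ ρ F b0 hν hb0 hBd 0
  obtain ⟨M1, hM1, hA1⟩ := bounds hprop ν K θ ρ F b0 hν hb0 hBd 1
  have hpi := Real.pi_pos
  set c : ℝ := 2 * Real.pi * (M0 * M1) with hc
  have hc0 : 0 ≤ c := by positivity
  set C : ℝ := Real.exp (2 / ν * K) * (T * c) + 1 with hC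
  have hC0 : 0 < C := by positivity
  refine ⟨C, 2 * C / (Real.pi * ν) + 1, hC0, by positivity, ?_⟩
  intro R hR S S' hS hS' hFS hSS' hRk x x' hx hx' t ht k
  have hR0 : 0 < R := lt_of_lt_of_le (by positivity) hR
  have hxsupp : ∀ s ∈ Icc 0 T, ∀ l, l ∉ S → x s l = 0 := fun s hs l hl => (hx.fld s hs).supp l hl
  have hxc : ∀ l, ContinuousOn (fun s => x s l) (Icc 0 T) := fun l => (hx.smooth l).continuousOn
  set v : ℝ → K3 → E3 := fun s => x' s - x s with hv
  set e : ℝ → K3 → E3 := fun s l => if l ∈ S then 0 else -Pk l (Nl S (x s) l) with he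
  have hfv : ∀ s ∈ Icc 0 T, Fld S' (v s) := fun s hs =>
    fld_sub (hx'.fld s hs) (fld_mono hSS' (hx.fld s hs))
  have hec : ∀ l, ContinuousOn (fun s => e s l) (Icc 0 T) := by
    intro l
    simp only [he]
    by_cases hl : l ∈ S
    · simp only [if_pos hl]
      exact continuousOn_const
    · simp only [if_neg hl]
      exact ((cont_Pk l).comp_continuousOn (cont_Nl hxc l)).neg
  have hode : ∀ s ∈ Icc 0 T, ∀ l ∈ S', HasDerivWithinAt (fun s => v s l)
      (-(lam ν l • v s l) - Pk l (Bl S' (x s) (v s) l + Bl S' (v s) (x s) l + Bl S' (v s) (v s) l)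
        + e s l) (Icc 0 T) s := by
    intro s hs l hl
    have h1 := hx'.ode s hs l hl
    have hPadd : ∀ u w : E3, Pk l (u + w) = Pk l u + Pk l w := by
      intro u w
      unfold Pk
      rw [W785.DF.dk_add, add_div, add_smul]
      abel
    have h2 : Nl S' (x' s) l = Nl S (x s) l +
        (Bl S' (x s) (v s) l + Bl S' (v s) (x s) l + Bl S' (v s) (v s) l) := by
      have h3 := hpw.2.2.2.2.2.2 S' (x s) (v s) (x s) (v s) l
      have h4 : x s + v s = x' s := by
        simp only [hv]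
        abel
      rw [h4, ← Nl_eq, ← Nl_eq, Nl_supp hSS' _ (hxsupp s hs)] at h3
      rw [h3]
      abel
    by_cases hlS : l ∈ S
    · have h5 := hx.ode s hs l hlS
      have h6 := h1.sub h5
      have e1 : e s l = 0 := if_pos hlS
      rw [e1]
      refine h6.congr_deriv ?_
      rw [h2, hPadd]
      simp only [hv, Pi.sub_apply, smul_sub]
      abel
    · have h5 : HasDerivWithinAt (fun s => x s l) 0 (Icc 0 T) s := by
        refine (hasDerivWithinAt_const s (Icc 0 T) (0 : E3)).congr ?_ (hxsupp s hs l hlS)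
        intro r hr
        exact hxsupp r hr l hlS
      have h6 := h1.sub h5
      have e1 : e s l = -Pk l (Nl S (x s) l) := if_neg hlS
      rw [e1]
      refine h6.congr_deriv ?_
      rw [h2, hPadd]
      simp only [hv, Pi.sub_apply, smul_sub, hxsupp s hs l hlS, smul_zero]
      abel
  have heb : ∀ s ∈ Icc 0 T, An S' (e s) ≤ c / R := by
    intro s hs
    have h1 : An S' (e s) ≤ ∑ l ∈ S', ‖Nl S (x s) l‖ / R := by
      unfold An
      refine Finset.sum_le_sum fun l hl => ?_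
      by_cases hlS : l ∈ S
      · have e1 : e s l = 0 := if_pos hlS
        rw [e1, norm_zero, zero_div]
        positivity
      · have e1 : e s l = -Pk l (Nl S (x s) l) := if_neg hlS
        rw [e1, norm_neg]
        have h2 := hRk l hl hlS
        exact div_le_div₀ (norm_nonneg _) (hpw.2.2.2.2.2.1 _ _) hR0 h2
    refine h1.trans ?_
    rw [← Finset.sum_div]
    refine div_le_div_of_nonneg_right ?_ hR0.le
    refine (sum_Nl S S' (x s) (hxsupp s hs)).trans ?_
    rw [hc]
    have h3 := hA0 T hT S hS hFS x hx s hs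
    have h4 := hA1 T hT S hS hFS x hx s hs
    have h5 := A_nonneg 0 S (x s)
    have h6 := A_nonneg 1 S (x s)
    gcongr
  have hint : ∫ s in (0 : ℝ)..T, An S' (e s) ≤ T * (c / R) := by
    have h1 : ∫ s in (0 : ℝ)..T, An S' (e s) ≤ ∫ s in (0 : ℝ)..T, c / R := by
      refine intervalIntegral.integral_mono_on hT.le ?_ ?_ heb
      · refine ContinuousOn.intervalIntegrable ?_
        rw [uIcc_of_le hT.le]
        exact cont_An hec
      · exact intervalIntegrable_const
    refine h1.trans (le_of_eq ?_)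
    rw [intervalIntegral.integral_const, smul_eq_mul, sub_zero]
  have hAS : (∫ s in (0 : ℝ)..T, A 0 S' (x s) ^ 2) ≤ K := by
    refine le_trans (le_of_eq ?_) (hBd S hS hFS T hT x hx).1
    refine intervalIntegral.integral_congr fun s hs => ?_
    rw [uIcc_of_le hT.le] at hs
    rw [A_supp hSS' 0 _ (hxsupp s hs)]
  have hv0 : An S' (v 0) = 0 := by
    unfold An
    refine Finset.sum_eq_zero fun l _ => ?_
    simp only [hv, hx.init, hx'.init, sub_self, Pi.zero_apply, norm_zero, zero_div]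
  have hintnn : 0 ≤ ∫ s in (0 : ℝ)..T, An S' (e s) := by
    refine intervalIntegral.integral_nonneg hT.le fun s _ => ?_
    exact Finset.sum_nonneg fun l _ => div_nonneg (norm_nonneg _) (ab_nonneg l)
  have hδ : C / R < Real.pi * ν / 2 := by
    have h1 : 2 * C / (Real.pi * ν) < R := lt_of_lt_of_le (by linarith) hR
    rw [div_lt_iff₀ (by positivity)] at h1
    rw [div_lt_iff₀ hR0]
    nlinarith
  have hmain := (hpert S' hS' ν T (C / R) hν hT hδ x v e
    (fun s hs => fld_mono hSS' (hx.fld s hs)) hfv hxc hec hode (by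
      rw [hv0, zero_add]
      calc Real.exp (2 / ν * ∫ s in (0 : ℝ)..T, A 0 S' (x s) ^ 2) *
            ∫ s in (0 : ℝ)..T, An S' (e s)
          ≤ Real.exp (2 / ν * K) * (T * (c / R)) := by
            refine mul_le_mul ?_ hint hintnn (Real.exp_pos _).le
            rw [Real.exp_le_exp]
            exact mul_le_mul_of_nonneg_left hAS (by positivity)
        _ = Real.exp (2 / ν * K) * (T * c) / R := by ring
        _ ≤ C / R := by
            refine div_le_div_of_nonneg_right ?_ hR0.le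
            rw [hC]
            linarith)).1 t ht
  have hvk : x' t k - x t k = v t k := rfl
  rw [hvk]
  by_cases hk : k ∈ S'
  · have hk0 : k ≠ 0 := hS'.ne hk
    have h1 : ‖v t k‖ / ab k ≤ An S' (v t) := by
      unfold An
      exact Finset.single_le_sum (f := fun l => ‖v t l‖ / ab l)
        (fun l _ => div_nonneg (norm_nonneg _) (ab_nonneg l)) hk
    have h2 := h1.trans hmain
    rw [div_le_iff₀ (ab_pos hk0)] at h2
    calc ‖v t k‖ ≤ C / R * ab k := h2
      _ = C * ab k / R := by ring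
  · rw [(hfv t ht).supp k hk, norm_zero]
    have := ab_nonneg k
    positivity

end Pool.Agent.W405.DD
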